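import Mathlib

/-!
# Slices, projections and the volume of `K + [0, p]`
-/

set_option autoImplicit false

namespace Pool.Agent.H629R2.Tr

open MeasureTheory Set
open scoped ENNReal

/-- The projection forgetting the coordinate `j`. -/
def drp {n : ℕ} (j : Fin (n + 1)) (x : Fin (n + 1) → ℝ) : Fin n → ℝ := fun k => x (j.succAbove k)

/-- The slice of `K` over `y` in the direction of the coordinate `j`. -/
def slice {n : ℕ} (j : Fin (n + 1)) (K : Set (Fin (n + 1) → ℝ)) (y : Fin n → ℝ) : Set ℝ :=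
  {t | (j.insertNth t y : Fin (n + 1) → ℝ) ∈ K}

/-- `K + [0, p]` -/
def seg {d : ℕ} (K : Set (Fin d → ℝ)) (p : Fin d → ℝ) : Set (Fin d → ℝ) :=
  {x | ∃ z ∈ K, ∃ s ∈ Icc (0 : ℝ) 1, x = z + s • p}

theorem drp_insert {n : ℕ} (j : Fin (n + 1)) (t : ℝ) (y : Fin n → ℝ) :
    drp j (j.insertNth t y : Fin (n + 1) → ℝ) = y := by
  funext k
  simp [drp]

theorem insert_drp {n : ℕ} (j : Fin (n + 1)) (x : Fin (n + 1) → ℝ) :
    (j.insertNth (x j) (drp j x) : Fin (n + 1) → ℝ) = x :=
  Fin.insertNth_self_removeNth j x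

theorem insert_add {n : ℕ} (j : Fin (n + 1)) (a b : ℝ) (y z : Fin n → ℝ) :
    (j.insertNth (a + b) (y + z) : Fin (n + 1) → ℝ) = j.insertNth a y + j.insertNth b z := by
  funext k
  refine Fin.succAboveCases j ?_ (fun i => ?_) k
  · simp
  · simp

theorem insert_smul {n : ℕ} (j : Fin (n + 1)) (c a : ℝ) (y : Fin n → ℝ) :
    (j.insertNth (c * a) (c • y) : Fin (n + 1) → ℝ) = c • (j.insertNth a y : Fin (n + 1) → ℝ) := by
  funext k
  refine Fin.succAboveCases j ?_ (fun i => ?_) k
  · simp
  · simp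

theorem single_eq_insert {n : ℕ} (j : Fin (n + 1)) (s : ℝ) :
    (s • Pi.single j (1 : ℝ) : Fin (n + 1) → ℝ) = j.insertNth s (0 : Fin n → ℝ) := by
  funext k
  refine Fin.succAboveCases j ?_ (fun i => ?_) k
  · simp
  · simp

theorem vol_slice {n : ℕ} (j : Fin (n + 1)) {K : Set (Fin (n + 1) → ℝ)} (hK : MeasurableSet K) :
    volume K = ∫⁻ y, volume (slice j K y) := by
  have hmp := volume_preserving_piFinSuccAbove (fun _ : Fin (n + 1) => ℝ) j
  set e := MeasurableEquiv.piFinSuccAbove (fun _ : Fin (n + 1) => ℝ) j with he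
  have h1 : volume (e.symm ⁻¹' K) = volume K := (hmp.symm e).measure_preimage hK.nullMeasurableSet
  rw [← h1, Measure.volume_eq_prod, Measure.prod_apply_symm (e.symm.measurable hK)]
  rfl

theorem measurable_slice {n : ℕ} (j : Fin (n + 1)) {K : Set (Fin (n + 1) → ℝ)}
    (hK : MeasurableSet K) : Measurable fun y => volume (slice j K y) := by
  set e := MeasurableEquiv.piFinSuccAbove (fun _ : Fin (n + 1) => ℝ) j with he
  exact measurable_measure_prodMk_right (e.symm.measurable hK)

theorem continuous_drp {n : ℕ} (j : Fin (n + 1)) : Continuous (drp j) :=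
  continuous_pi fun _ => continuous_apply _

theorem continuous_insert {n : ℕ} (j : Fin (n + 1)) (y : Fin n → ℝ) :
    Continuous fun t : ℝ => (j.insertNth t y : Fin (n + 1) → ℝ) := by
  refine continuous_pi fun k => ?_
  refine Fin.succAboveCases j ?_ (fun i => ?_) k
  · simp only [Fin.insertNth_apply_same]
    exact continuous_id
  · simp only [Fin.insertNth_apply_succAbove]
    exact continuous_const

theorem isCompact_slice {n : ℕ} (j : Fin (n + 1)) {K : Set (Fin (n + 1) → ℝ)} (hK : IsCompact K)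
    (y : Fin n → ℝ) : IsCompact (slice j K y) := by
  have h1 : slice j K y = (fun x : Fin (n + 1) → ℝ => x j) '' (K ∩ drp j ⁻¹' {y}) := by
    ext t
    constructor
    · intro ht
      exact ⟨_, ⟨ht, drp_insert j t y⟩, by simp⟩
    · rintro ⟨x, ⟨hx, hy⟩, rfl⟩
      show (j.insertNth (x j) y : Fin (n + 1) → ℝ) ∈ K
      have : y = drp j x := hy.symm
      rw [this, insert_drp]
      exact hx
  rw [h1]
  exact (hK.inter_right ((isClosed_singleton).preimage (continuous_drp j))).image
    (continuous_apply j)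

theorem convex_slice {n : ℕ} (j : Fin (n + 1)) {K : Set (Fin (n + 1) → ℝ)} (hK : Convex ℝ K)
    (y : Fin n → ℝ) : Convex ℝ (slice j K y) := by
  intro a ha b hb s t hs ht hst
  have h1 := hK ha hb hs ht hst
  rw [← insert_smul, ← insert_smul, ← insert_add, ← add_smul, hst, one_smul] at h1
  exact h1

/-- Slices of a compact convex set are intervals. -/
theorem slice_eq {n : ℕ} (j : Fin (n + 1)) {K : Set (Fin (n + 1) → ℝ)} (hK : Convex ℝ K)
    (hc : IsCompact K) (y : Fin n → ℝ) (hy : y ∈ drp j '' K) :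
    ∃ a b : ℝ, a ≤ b ∧ slice j K y = Icc a b := by
  have hne : (slice j K y).Nonempty := by
    obtain ⟨x, hx, rfl⟩ := hy
    exact ⟨x j, by show (j.insertNth (x j) (drp j x) : Fin (n + 1) → ℝ) ∈ K; rwa [insert_drp]⟩
  have h1 : IsConnected (slice j K y) := ⟨hne, (convex_slice j hK y).isPreconnected⟩
  have h2 := eq_Icc_of_connected_compact h1 (isCompact_slice j hc y)
  refine ⟨_, _, ?_, h2⟩
  rw [h2] at hne
  exact Set.nonempty_Icc.1 hne

theorem slice_empty {n : ℕ} (j : Fin (n + 1)) {K : Set (Fin (n + 1) → ℝ)} (y : Fin n → ℝ)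
    (hy : y ∉ drp j '' K) : slice j K y = ∅ := by
  ext t
  simp only [mem_empty_iff_false, iff_false]
  intro ht
  exact hy ⟨_, ht, drp_insert j t y⟩

theorem slice_seg {n : ℕ} (j : Fin (n + 1)) {K : Set (Fin (n + 1) → ℝ)} (y : Fin n → ℝ) :
    slice j (seg K (Pi.single j 1)) y = {t | ∃ u ∈ slice j K y, ∃ s ∈ Icc (0 : ℝ) 1, t = u + s} := by
  ext t
  constructor
  · rintro ⟨z, hz, s, hs, hzt⟩
    rw [single_eq_insert] at hzt
    have h1 : z = (j.insertNth (t - s) y : Fin (n + 1) → ℝ) := by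
      have h2 : (j.insertNth t y : Fin (n + 1) → ℝ) =
          j.insertNth (t - s) y + j.insertNth s (0 : Fin n → ℝ) := by
        rw [← insert_add]; simp
      rw [h2] at hzt
      exact (add_right_cancel hzt).symm
    refine ⟨t - s, ?_, s, hs, by ring⟩
    show (j.insertNth (t - s) y : Fin (n + 1) → ℝ) ∈ K
    rw [← h1]; exact hz
  · rintro ⟨u, hu, s, hs, rfl⟩
    refine ⟨_, hu, s, hs, ?_⟩
    rw [single_eq_insert, ← insert_add, add_zero]

theorem isCompact_seg {d : ℕ} {K : Set (Fin d → ℝ)} (hK : IsCompact K) (p : Fin d → ℝ) :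
    IsCompact (seg K p) := by
  have h1 : seg K p = (fun q : (Fin d → ℝ) × ℝ => q.1 + q.2 • p) '' (K ×ˢ Icc (0 : ℝ) 1) := by
    ext x
    constructor
    · rintro ⟨z, hz, s, hs, rfl⟩
      exact ⟨(z, s), ⟨hz, hs⟩, rfl⟩
    · rintro ⟨⟨z, s⟩, ⟨hz, hs⟩, rfl⟩
      exact ⟨z, hz, s, hs, rfl⟩
  rw [h1]
  exact (hK.prod isCompact_Icc).image (by fun_prop)

/-- `vol (K + [0, e_j]) = vol K + vol (projection of K)`. -/
theorem vol_seg_single {n : ℕ} (j : Fin (n + 1)) {K : Set (Fin (n + 1) → ℝ)} (hK : Convex ℝ K)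
    (hc : IsCompact K) :
    volume (seg K (Pi.single j 1)) = volume K + volume (drp j '' K) := by
  have hcd : IsCompact (drp j '' K) := hc.image (continuous_drp j)
  rw [vol_slice j (isCompact_seg hc _).measurableSet, vol_slice j hc.measurableSet,
    ← lintegral_indicator_one hcd.measurableSet, ← lintegral_add_left (measurable_slice j hc.measurableSet)]
  refine lintegral_congr fun y => ?_
  rw [slice_seg]
  by_cases hy : y ∈ drp j '' K
  · obtain ⟨a, b, hab, hs⟩ := slice_eq j hK hc y hy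
    rw [hs, indicator_of_mem hy]
    have h1 : {t | ∃ u ∈ Icc a b, ∃ s ∈ Icc (0 : ℝ) 1, t = u + s} = Icc a (b + 1) := by
      ext t
      constructor
      · rintro ⟨u, hu, s, hs, rfl⟩
        exact ⟨by linarith [hu.1, hs.1], by linarith [hu.2, hs.2]⟩
      · intro ht
        by_cases h : t ≤ b
        · exact ⟨t, ⟨ht.1, h⟩, 0, by simp, by simp⟩
        · exact ⟨b, ⟨hab, le_rfl⟩, t - b, ⟨by linarith, by linarith [ht.2]⟩, by ring⟩
    rw [h1, Real.volume_Icc, Real.volume_Icc]
    simp only [Pi.one_apply]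
    rw [← ENNReal.ofReal_one, ← ENNReal.ofReal_add (by linarith) (by norm_num)]
    congr 1
    ring
  · rw [slice_empty j y hy, indicator_of_notMem hy]
    simp

theorem lintegral_one_sub_pow (n : ℕ) :
    ∫⁻ t in Ioc (0 : ℝ) 1, ENNReal.ofReal ((1 - t) ^ n) = ENNReal.ofReal (1 / (n + 1)) := by
  rw [← ofReal_integral_eq_lintegral_ofReal]
  · rw [← intervalIntegral.integral_of_le zero_le_one]
    have h1 := intervalIntegral.integral_comp_sub_left (fun t : ℝ => t ^ n) (a := 0) (b := 1) 1
    rw [h1]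
    simp
  · have h : Continuous fun t : ℝ => (1 - t) ^ n := by fun_prop
    exact (h.integrableOn_Icc (a := 0) (b := 1)).mono_set Ioc_subset_Icc_self
  · refine (ae_restrict_iff' measurableSet_Ioc).2 (Filter.Eventually.of_forall fun t ht => ?_)
    exact pow_nonneg (by linarith [ht.2]) n

/-- `vol K ≥ vol (projection of K) / (n + 1)` if `K` contains a unit segment in the direction of the
projection. -/
theorem vol_ge_drp {n : ℕ} (j : Fin (n + 1)) {K : Set (Fin (n + 1) → ℝ)} (hK : Convex ℝ K)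
    (hc : IsCompact K) (z : Fin (n + 1) → ℝ) (hz : z ∈ K) (hz' : z + Pi.single j 1 ∈ K) :
    ENNReal.ofReal (1 / (n + 1)) * volume (drp j '' K) ≤ volume K := by
  set f : (Fin n → ℝ) → ℝ := fun y => (volume (slice j K y)).toReal with hf
  have hfin : ∀ y, volume (slice j K y) ≠ ∞ := fun y => (isCompact_slice j hc y).measure_lt_top.ne
  have h1 : volume K = ∫⁻ y, ENNReal.ofReal (f y) := by
    rw [vol_slice j hc.measurableSet]
    refine lintegral_congr fun y => ?_
    rw [ENNReal.ofReal_toReal (hfin y)]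
  rw [h1, lintegral_eq_lintegral_meas_le volume (Filter.Eventually.of_forall fun y =>
    ENNReal.toReal_nonneg) (measurable_slice j hc.measurableSet).ennreal_toReal.aemeasurable]
  have h2 : ∫⁻ t in Ioc (0 : ℝ) 1, ENNReal.ofReal ((1 - t) ^ n) * volume (drp j '' K) ≤
      ∫⁻ t in Ioc (0 : ℝ) 1, volume {y | t ≤ f y} := by
    refine setLIntegral_mono_ae' measurableSet_Ioc (Filter.Eventually.of_forall fun t ht => ?_)
    have h3 : AffineMap.homothety (drp j z) (1 - t) '' (drp j '' K) ⊆ {y | t ≤ f y} := by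
      rintro _ ⟨_, ⟨x, hx, rfl⟩, rfl⟩
      show t ≤ f _
      set y : Fin n → ℝ := AffineMap.homothety (drp j z) (1 - t) (drp j x) with hy
      have hy2 : y = t • drp j z + (1 - t) • drp j x := by
        rw [hy, AffineMap.homothety_apply]
        simp only [vsub_eq_sub, vadd_eq_add]
        module
      have h4 : ∀ a : ℝ, (j.insertNth a (drp j z) : Fin (n + 1) → ℝ) ∈ K →
          t * a + (1 - t) * x j ∈ slice j K y := by
        intro a ha
        have hx' : (j.insertNth (x j) (drp j x) : Fin (n + 1) → ℝ) ∈ K := by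
          rw [insert_drp]; exact hx
        have h5 := hK ha hx' ht.1.le (by linarith [ht.2] : (0 : ℝ) ≤ 1 - t) (by ring)
        rw [← insert_smul, ← insert_smul, ← insert_add, ← hy2] at h5
        exact h5
      have h6 : (j.insertNth (z j) (drp j z) : Fin (n + 1) → ℝ) ∈ K := by
        rw [insert_drp]; exact hz
      have h7 : (j.insertNth (z j + 1) (drp j z) : Fin (n + 1) → ℝ) ∈ K := by
        have h8 : (j.insertNth (z j + 1) (drp j z) : Fin (n + 1) → ℝ) = z + Pi.single j 1 := by
          have h9 := insert_add j (z j) 1 (drp j z) 0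
          rw [add_zero, insert_drp, ← single_eq_insert, one_smul] at h9
          exact h9
        rw [h8]; exact hz'
      have h10 : Icc (t * z j + (1 - t) * x j) (t * (z j + 1) + (1 - t) * x j) ⊆ slice j K y :=
        (convex_slice j hK y).ordConnected.out (h4 _ h6) (h4 _ h7)
      have h11 := measure_mono (μ := (volume : Measure ℝ)) h10
      rw [Real.volume_Icc] at h11
      have h12 : t * (z j + 1) + (1 - t) * x j - (t * z j + (1 - t) * x j) = t := by ring
      rw [h12] at h11
      have h13 := ENNReal.toReal_mono (hfin y) h11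
      rwa [ENNReal.toReal_ofReal ht.1.le] at h13
    refine le_trans (le_of_eq ?_) (measure_mono h3)
    rw [Measure.addHaar_image_homothety]
    have h14 : (0 : ℝ) ≤ (1 - t) ^ n := pow_nonneg (by linarith [ht.2]) n
    simp [abs_of_nonneg h14]
  have h3 : ∫⁻ t in Ioc (0 : ℝ) 1, ENNReal.ofReal ((1 - t) ^ n) * volume (drp j '' K) =
      ENNReal.ofReal (1 / (n + 1)) * volume (drp j '' K) := by
    rw [lintegral_mul_const _ (by fun_prop), lintegral_one_sub_pow]
  rw [← h3]
  refine h2.trans ?_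
  exact lintegral_mono_set Ioc_subset_Ioi_self

end Pool.Agent.H629R2.Tr
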