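import Pool.Agent.H629R2.Tr.Base

/-!
# Lower bound for the volume of `K + [0, p]` and the Rogers–Shephard upper bound
-/

set_option autoImplicit false

namespace Pool.Agent.H629R2.Tr

open MeasureTheory Set
open scoped ENNReal

theorem drp_add {n : ℕ} (j : Fin (n + 1)) (x y : Fin (n + 1) → ℝ) :
    drp j (x + y) = drp j x + drp j y := rfl

theorem drp_smul {n : ℕ} (j : Fin (n + 1)) (c : ℝ) (x : Fin (n + 1) → ℝ) :
    drp j (c • x) = c • drp j x := rfl

theorem drp_single {n : ℕ} (j : Fin (n + 1)) (i : Fin n) :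
    drp j (Pi.single (j.succAbove i) (1 : ℝ)) = Pi.single i 1 := by
  funext k
  simp only [drp, Pi.single_apply]
  congr 1
  simp

/-- The projection as a linear map. -/
def drpL {n : ℕ} (j : Fin (n + 1)) : (Fin (n + 1) → ℝ) →ₗ[ℝ] (Fin n → ℝ) where
  toFun := drp j
  map_add' := drp_add j
  map_smul' := drp_smul j

theorem convex_drp {n : ℕ} (j : Fin (n + 1)) {K : Set (Fin (n + 1) → ℝ)} (hK : Convex ℝ K) :
    Convex ℝ (drp j '' K) := hK.linear_image (drpL j)

/-- A compact convex set whose difference body contains the unit vectors has volume at least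
`1 / d!`. -/
theorem vol_ge_of_diff : ∀ (d : ℕ) (K : Set (Fin d → ℝ)), Convex ℝ K → IsCompact K → K.Nonempty →
    (∀ i, ∃ z ∈ K, z + Pi.single i 1 ∈ K) → ENNReal.ofReal (1 / (d.factorial : ℝ)) ≤ volume K := by
  intro d
  induction d with
  | zero =>
    intro K _ _ hne _
    have h1 : K = univ := by
      obtain ⟨x, hx⟩ := hne
      ext y
      simp only [mem_univ, iff_true]
      rwa [Subsingleton.elim y x]
    rw [h1]
    simp [volume_pi]
  | succ n ih =>
    intro K hK hc hne hd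
    obtain ⟨z, hz, hz'⟩ := hd 0
    have h1 := vol_ge_drp 0 hK hc z hz hz'
    refine le_trans ?_ h1
    have h2 := ih (drp 0 '' K) (convex_drp 0 hK) (hc.image (continuous_drp 0)) (hne.image _)
      (fun i => by
        obtain ⟨u, hu, hu'⟩ := hd ((0 : Fin (n + 1)).succAbove i)
        exact ⟨drp 0 u, ⟨u, hu, rfl⟩, ⟨_, hu', by rw [drp_add, drp_single]⟩⟩)
    calc ENNReal.ofReal (1 / ((n + 1).factorial : ℝ))
        = ENNReal.ofReal (1 / (n + 1)) * ENNReal.ofReal (1 / (n.factorial : ℝ)) := by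
          rw [← ENNReal.ofReal_mul (by positivity)]
          congr 1
          rw [Nat.factorial_succ]
          push_cast
          field_simp
      _ ≤ ENNReal.ofReal (1 / (n + 1)) * volume (drp 0 '' K) := by gcongr

theorem image_seg {d : ℕ} (f : (Fin d → ℝ) →ₗ[ℝ] (Fin d → ℝ)) (K : Set (Fin d → ℝ))
    (p : Fin d → ℝ) : f '' seg K p = seg (f '' K) (f p) := by
  ext x
  constructor
  · rintro ⟨_, ⟨z, hz, s, hs, rfl⟩, rfl⟩
    exact ⟨f z, ⟨z, hz, rfl⟩, s, hs, by simp⟩
  · rintro ⟨_, ⟨z, hz, rfl⟩, s, hs, rfl⟩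
    exact ⟨z + s • p, ⟨z, hz, s, hs, rfl⟩, by simp⟩

/-- If `w_i ∈ K - K` for all `i`, then `vol (K + [0, w_0]) ≥ (d + 1) / d! * |det w|`. -/
theorem vol_seg_ge {n : ℕ} {K : Set (Fin (n + 1) → ℝ)} (hK : Convex ℝ K)
    (hc : IsCompact K) (hne : K.Nonempty) (f : (Fin (n + 1) → ℝ) →ₗ[ℝ] (Fin (n + 1) → ℝ))
    (hw : ∀ i, ∃ z ∈ K, z + f (Pi.single i 1) ∈ K) :
    ENNReal.ofReal ((n + 2) / ((n + 1).factorial : ℝ)) * ENNReal.ofReal |f.det| ≤
      volume (seg K (f (Pi.single 0 1))) := by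
  by_cases hdet : f.det = 0
  · simp [hdet]
  set e := f.equivOfDetNeZero hdet with he
  have hef : ∀ x, e x = f x := fun x => rfl
  set K' : Set (Fin (n + 1) → ℝ) := e.symm '' K with hK'
  have hKf : f '' K' = K := by
    rw [hK', image_image]
    have : ∀ x, f (e.symm x) = x := fun x => by rw [← hef]; exact e.apply_symm_apply x
    simp [this]
  have hK'c : Convex ℝ K' := hK.linear_image (e.symm : (Fin (n + 1) → ℝ) →ₗ[ℝ] (Fin (n + 1) → ℝ))
  have hK'k : IsCompact K' := hc.image (LinearMap.continuous_of_finiteDimensional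
    (e.symm : (Fin (n + 1) → ℝ) →ₗ[ℝ] (Fin (n + 1) → ℝ)))
  have hK'n : K'.Nonempty := hne.image _
  have hw' : ∀ i, ∃ z ∈ K', z + Pi.single i 1 ∈ K' := by
    intro i
    obtain ⟨z, hz, hz'⟩ := hw i
    refine ⟨e.symm z, ⟨z, hz, rfl⟩, ⟨_, hz', ?_⟩⟩
    rw [map_add, ← hef, e.symm_apply_apply]
  have h1 : seg K (f (Pi.single 0 1)) = f '' seg K' (Pi.single 0 1) := by
    rw [image_seg, hKf]
  rw [h1, Measure.addHaar_image_linearMap, mul_comm]
  gcongr
  rw [vol_seg_single 0 hK'c hK'k]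
  have h2 := vol_ge_of_diff (n + 1) K' hK'c hK'k hK'n hw'
  have h3 := vol_ge_of_diff n (drp 0 '' K') (convex_drp 0 hK'c) (hK'k.image (continuous_drp 0))
      (hK'n.image _) (fun i => by
        obtain ⟨u, hu, hu'⟩ := hw' ((0 : Fin (n + 1)).succAbove i)
        exact ⟨drp 0 u, ⟨u, hu, rfl⟩, ⟨_, hu', by rw [drp_add, drp_single]⟩⟩)
  refine le_trans (le_of_eq ?_) (add_le_add h2 h3)
  rw [← ENNReal.ofReal_add (by positivity) (by positivity)]
  congr 1
  rw [Nat.factorial_succ]
  push_cast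
  field_simp
  ring

/-- The Rogers–Shephard upper bound: `vol (K + [0, p]) ≤ (d + 1) vol K` when `p ∈ K - K`. -/
theorem vol_seg_le {n : ℕ} {K : Set (Fin (n + 1) → ℝ)} (hK : Convex ℝ K)
    (hc : IsCompact K) (p z : Fin (n + 1) → ℝ) (hz : z ∈ K) (hzp : z + p ∈ K) :
    volume (seg K p) ≤ ENNReal.ofReal (n + 2) * volume K := by
  by_cases hp : p = 0
  · have h1 : seg K p = K := by
      rw [hp]
      ext x
      constructor
      · rintro ⟨z, hz, s, hs, rfl⟩
        simpa using hz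
      · intro hx
        exact ⟨x, hx, 0, by simp, by simp⟩
    rw [h1]
    refine le_mul_of_one_le_left (by positivity) ?_
    rw [← ENNReal.ofReal_one]
    exact ENNReal.ofReal_le_ofReal (by linarith [(Nat.cast_nonneg n : (0 : ℝ) ≤ n)])
  obtain ⟨j, hj⟩ : ∃ j, p j ≠ 0 := by
    by_contra h
    push Not at h
    exact hp (funext h)
  set A : Matrix (Fin (n + 1)) (Fin (n + 1)) ℝ := (1 : Matrix _ _ ℝ).updateCol j p with hA
  set f : (Fin (n + 1) → ℝ) →ₗ[ℝ] (Fin (n + 1) → ℝ) := Matrix.toLin' A with hf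
  have hfj : f (Pi.single j 1) = p := by
    rw [hf, Matrix.toLin'_apply, Matrix.mulVec_single_one]
    funext k
    simp [hA, Matrix.col]
  have hdet : f.det ≠ 0 := by
    rw [hf, LinearMap.det_toLin', hA]
    rw [← Matrix.cramer_apply, Matrix.cramer_one]
    exact hj
  set e := f.equivOfDetNeZero hdet with he
  have hef : ∀ x, e x = f x := fun x => rfl
  set K' : Set (Fin (n + 1) → ℝ) := e.symm '' K with hK'
  have hKf : f '' K' = K := by
    rw [hK', image_image]
    have : ∀ x, f (e.symm x) = x := fun x => by rw [← hef]; exact e.apply_symm_apply x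
    simp [this]
  have hK'c : Convex ℝ K' := hK.linear_image (e.symm : (Fin (n + 1) → ℝ) →ₗ[ℝ] (Fin (n + 1) → ℝ))
  have hK'k : IsCompact K' := hc.image (LinearMap.continuous_of_finiteDimensional
    (e.symm : (Fin (n + 1) → ℝ) →ₗ[ℝ] (Fin (n + 1) → ℝ)))
  have h1 : seg K p = f '' seg K' (Pi.single j 1) := by
    rw [image_seg, hKf, hfj]
  have h2 : volume K = ENNReal.ofReal |f.det| * volume K' := by
    rw [← Measure.addHaar_image_linearMap, hKf]
  rw [h1, Measure.addHaar_image_linearMap, h2, mul_left_comm]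
  gcongr
  rw [vol_seg_single j hK'c hK'k]
  have h3 : ENNReal.ofReal (1 / (n + 1)) * volume (drp j '' K') ≤ volume K' := by
    refine vol_ge_drp j hK'c hK'k (e.symm z) ⟨z, hz, rfl⟩ ⟨_, hzp, ?_⟩
    rw [map_add, ← hfj, ← hef, e.symm_apply_apply]
  have h4 : volume (drp j '' K') ≤ ENNReal.ofReal (n + 1) * volume K' := by
    calc volume (drp j '' K') = ENNReal.ofReal (n + 1) * (ENNReal.ofReal (1 / (n + 1)) *
          volume (drp j '' K')) := by
          rw [← mul_assoc, ← ENNReal.ofReal_mul (by positivity)]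
          have : ((n : ℝ) + 1) * (1 / (n + 1)) = 1 := by field_simp
          rw [this, ENNReal.ofReal_one, one_mul]
      _ ≤ _ := by gcongr
  calc volume K' + volume (drp j '' K') ≤ volume K' + ENNReal.ofReal (n + 1) * volume K' := by
        gcongr
    _ = (ENNReal.ofReal 1 + ENNReal.ofReal (n + 1)) * volume K' := by
        rw [ENNReal.ofReal_one, add_mul, one_mul]
    _ = ENNReal.ofReal (n + 2) * volume K' := by
        rw [← ENNReal.ofReal_add (by norm_num) (by positivity)]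
        congr 2
        ring

/-- `conv (K ∪ (p + K)) = K + [0, p]`. -/
theorem hull_eq_seg {d : ℕ} {K : Set (Fin d → ℝ)} (hK : Convex ℝ K) (p : Fin d → ℝ) :
    convexHull ℝ (K ∪ (fun x => p + x) '' K) = seg K p := by
  apply subset_antisymm
  · refine convexHull_min ?_ ?_
    · rintro x (hx | ⟨y, hy, rfl⟩)
      · exact ⟨x, hx, 0, by simp, by simp⟩
      · exact ⟨y, hy, 1, by simp, by simp [add_comm]⟩
    · rintro _ ⟨z, hz, s, hs, rfl⟩ _ ⟨z', hz', s', hs', rfl⟩ a b ha hb hab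
      refine ⟨a • z + b • z', hK hz hz' ha hb hab, a * s + b * s', ?_, ?_⟩
      · exact ⟨by nlinarith [mul_nonneg ha hs.1, mul_nonneg hb hs'.1],
          by nlinarith [mul_le_mul_of_nonneg_left hs.2 ha, mul_le_mul_of_nonneg_left hs'.2 hb]⟩
      · module
  · rintro _ ⟨z, hz, s, hs, rfl⟩
    have h1 : z ∈ convexHull ℝ (K ∪ (fun x => p + x) '' K) := subset_convexHull ℝ _ (Or.inl hz)
    have h2 : p + z ∈ convexHull ℝ (K ∪ (fun x => p + x) '' K) :=
      subset_convexHull ℝ _ (Or.inr ⟨z, hz, rfl⟩)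
    have h3 := (convex_convexHull ℝ (K ∪ (fun x => p + x) '' K)) h1 h2
      (by linarith [hs.2] : (0 : ℝ) ≤ 1 - s) hs.1 (by ring)
    have h4 : z + s • p = (1 - s) • z + s • (p + z) := by module
    rw [h4]
    exact h3

end Pool.Agent.H629R2.Tr
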